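import Pool.Agent.U536.CF.F
import Pool.Agent.Results.MP_7f88e4_nt.MultiplicativeValues

/-!
# The maps `3 x + H n` started at `F n`, for the integers `n` near integers with a large common factor with a value of a multiplicative function

Let `g` be a positive multiplicative function of at most polynomial growth such that `g p ≤ M p` for the large primes `p`,
with different values at different large primes; for example Euler's function or the sum of the divisors. Let `G` have
steps bounded below by a positive constant and growth at most `v^d`, for example `α v^d`. Let `b < 1` and `0 ≤ c < 2 b -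
1`. For all `m ≤ N` but `N exp (-(log N)^c)`, for EVERY integer `w ≥ exp ((log N)^b)` with `gcd(w, g(m)) ≥ w^ρ`, EVERY
integer `n` with `H n` odd and `||n| - G w| ≤ w^κ` is such that the term `j` of the trajectory of `F n` under `T_{3,k}`,
`k = H n`, is `(√3 / 2)^j |F n|`, up to a factor between `|n|^(-ε)` and `|n|^ε`, for all `j` with `2^j ≤ |n|`, if `κ ≥ 0`
and `d (1 - δ) + κ < ρ ≤ 1` (`δ > 0` depends only on the polynomials `F`, `H` and on `ε > 0`). The integers `w` include
all large divisors of `g(m)` and their multiples by small integers; for Euler's function, the orders of the elements of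
the group of units modulo `m`.

Proof. Write `m = k u` with `u` squarefree and composed of primes larger than `N^(1/J)`, `J = (log N)^a`, and `k ≤ exp (4
(log N)^a)`; this is possible for all `m ≤ N` but very few. If `v ∣ f(k) f(u)`, then `v = g v'` with `g ∣ f(k)` and `v' ∣
∏ f(p)`, and the number of such `u ≤ N / k` is at most `N / (k v')` times `(log N)^O(J)` times the number `τ_J(v')` of the
ordered factorizations of `v'` into `J` factors. The inequality `τ_J^q ≤ τ_K` for `K ≥ J^q` and Hölder's inequality bound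
the sum over the sparse set of the exceptional `v`. The file `MultiplicativeValues` of the starting library treats the
integers `w = g(m)`, with `N / (log N)^U` exceptions.
-/

set_option autoImplicit false

namespace Pool.Agent.Results.MP_7f88e4_nt.CommonFactors

open Polynomial
open Pool.Agent.N733.TG (LM Expanding lm_totient lm_sigma expanding_pow)
open Pool.Agent.Results.MP_7f88e4_nt.PolynomialPairs (T Follows)
open Pool.Agent.U536.CF (Common common_good common_of_dvd common_order)
open Pool.Agent.Results.MP_7f88e4_nt.MultiplicativeValues (Bad bad_fin count)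

/-- **The maps `3 x + H n` started at `F n`, for the integers `n` near integers with a large common factor with a value of a
multiplicative function.** Let `g` be multiplicative and positive, of at most polynomial growth, with `g p ≤ M p` at the
large primes, and injective there. Let `G` have steps `≥ a > 0` and growth at most `v^d`. Let `b < 1` and `0 ≤ c < 2 b -
1`, `κ ≥ 0` and `d (1 - δ) + κ < ρ ≤ 1` (`δ > 0` depends only on the polynomials `F`, `H` and on `ε > 0`). For all large
`N`, for all `m ≤ N` but `N exp (-(log N)^c)`, for EVERY integer `w ≥ exp ((log N)^b)` with `gcd(w, g(m)) ≥ w^ρ`, EVERY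
integer `n` with `H n` odd and `||n| - G w| ≤ w^κ` is such that the term `j` of the trajectory of `F n` under `T_{3,k}`,
`k = H n`, is `(√3 / 2)^j |F n|`, up to a factor between `|n|^(-ε)` and `|n|^ε`, for all `j` with `2^j ≤ |n|`. All
divisors `w ≥ exp ((log N)^b)` of `g(m)` are such integers `w`, and for Euler's function the orders `≥ exp ((log N)^b)` of
the units modulo `m`. Euler's function and the sum of the divisors are examples of `g`, and `α v^d` with `α > 0`, `d ≥ 1`
is an example of `G`. -/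
theorem result :
    (∀ F H : ℤ[X], H ≠ 0 → H.natDegree < F.natDegree → ∀ ε : ℝ, 0 < ε → ∃ δ : ℝ, 0 < δ ∧
      ∀ g : ℕ → ℕ, LM g → ∀ (G : ℕ → ℝ) (d : ℝ), Expanding G d → ∀ κ ρ b₁ c₁ : ℝ, 0 ≤ κ →
      d * (1 - δ) + κ < ρ → ρ ≤ 1 → b₁ < 1 → 0 ≤ c₁ → c₁ < 2 * b₁ - 1 → ∃ N₀ : ℕ, ∀ N : ℕ, N₀ ≤ N →
      ({m : ℕ | 1 ≤ m ∧ m ≤ N ∧ ¬ ∀ w : ℕ, Common g b₁ ρ N m w → ∀ n : ℤ, H.eval n % 2 = 1 →
        |(|(n : ℝ)|) - G w| ≤ (w : ℝ) ^ κ →
          Follows (H.eval n) ε |(n : ℝ)| (F.eval n)}.ncard : ℝ) ≤ N * Real.exp (-(Real.log N ^ c₁))) ∧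
    (LM Nat.totient ∧ LM (fun m => ∑ d ∈ m.divisors, d)) ∧
    (∀ α d : ℝ, 0 < α → 1 ≤ d → Expanding (fun v => α * (v : ℝ) ^ d) d) ∧
    (∀ (f : ℕ → ℕ) (b ρ : ℝ) (N m w : ℕ), ρ ≤ 1 → Real.exp (Real.log N ^ b) ≤ (w : ℝ) → w ∣ f m → Common f b ρ N m w) ∧
    ∀ (b ρ : ℝ) (N m : ℕ), ρ ≤ 1 → ∀ x : (ZMod m)ˣ, Real.exp (Real.log N ^ b) ≤ (orderOf x : ℝ) →
      Common Nat.totient b ρ N m (orderOf x) := by
  refine ⟨fun F H hH hdeg ε hε => ?_, ⟨lm_totient, lm_sigma⟩, fun α d hα hd => expanding_pow hα hd, fun f b ρ N m w hρ hw hd => common_of_dvd hρ hw hd,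
    fun b ρ N m hρ x hx => common_order hρ x hx⟩
  obtain ⟨δ, K, hδ, hδ2, hc⟩ := count F H hH hdeg ε hε
  refine ⟨δ, hδ, fun g hg G d hG κ ρ b₁ c₁ hκ h1 hρ hb hc₁ hcb => ?_⟩
  refine common_good (fun n : ℤ => H.eval n % 2 = 1)
    (fun n : ℤ => Follows (H.eval n) ε |(n : ℝ)| (F.eval n)) (fun n : ℤ => |(n : ℝ)|) hg hG
    (s := 1 - δ) (κ := κ) (by linarith) hκ h1 hρ hb hc₁ hcb (fun ε' hε' => ?_)
  refine ⟨|K|, fun X hX => ?_⟩
  have e : {t : ℤ | (H.eval t % 2 = 1 ∧ ¬ Follows (H.eval t) ε |(t : ℝ)| (F.eval t)) ∧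
      |(t : ℝ)| ≤ X} = Bad F H ε X := by
    ext t
    simp only [Bad, Set.mem_ofPred_eq]
    tauto
  rw [e]
  refine ⟨bad_fin F H ε X, (hc X hX).trans ?_⟩
  have h2 : X ^ (1 - δ) ≤ X ^ (1 - δ + ε') := Real.rpow_le_rpow_of_exponent_le hX (by linarith)
  have h3 : 0 ≤ X ^ (1 - δ) := Real.rpow_nonneg (by linarith) _
  calc K * X ^ (1 - δ) ≤ |K| * X ^ (1 - δ) := mul_le_mul_of_nonneg_right (le_abs_self K) h3
    _ ≤ |K| * X ^ (1 - δ + ε') := mul_le_mul_of_nonneg_left h2 (abs_nonneg K)

end Pool.Agent.Results.MP_7f88e4_nt.CommonFactors
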