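import Mathlib
import Pool.Agent.U307.LR.G
import Pool.Agent.Results.MP_7f88e4_nt.FixedStartAlmostAllK

set_option autoImplicit false

/-!
# The `3x+k` maps with `k` from a linear recurrence

A sequence of integers is called smooth if, for some step `M`, its `k`-th differences with step `M` are
divisible by `4 ^ k`, for all `k`. The smooth sequences form a ring, which contains every linear
recurrence with odd last coefficient (like the Fibonacci numbers, all polynomials, all `b ^ n` with `b` odd)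
and every Newton series `∑ c_j n (n - 1) ... (n - j + 1)`. A smooth sequence is spread modulo powers of two
if and only if it is constant on no arithmetic progression. Here `k` runs through the terms of such a
sequence, and the starting point is fixed.
-/

namespace Pool.Agent.Results.MP_7f88e4_nt.LinearRecurrences

open Filter Topology

/-- the `3x+k` map on the integers -/
def T (k x : ℤ) : ℤ := if x % 2 = 0 then x / 2 else (3 * x + k) / 2

/-- The orbit of `x` is eventually periodic. -/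
def EvPer (k x : ℤ) : Prop := ∃ m p : ℕ, 1 ≤ p ∧ (T k)^[m + p] x = (T k)^[m] x

/-- The sequence `x` is spread modulo powers of two: there is `δ > 0` such that for every `ε > 0` there
are `η > 0` and `N₀` such that, for `N ≥ N₀` and `2 ^ t ≤ N ^ δ`, at most `η 2 ^ t` classes modulo `2 ^ t`
contain together at most `ε N` of the integers `x n`, `1 ≤ n ≤ N`. -/
def Spread (x : ℕ → ℤ) : Prop :=
  ∃ δ : ℝ, 0 < δ ∧ ∀ ε : ℝ, 0 < ε → ∃ η : ℝ, 0 < η ∧ ∃ N₀ : ℕ, ∀ N : ℕ, N₀ ≤ N →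
    ∀ t : ℕ, (2 : ℝ) ^ t ≤ (N : ℝ) ^ δ → ∀ A : Finset ℤ, (A.card : ℝ) ≤ η * 2 ^ t →
      (({n | 1 ≤ n ∧ n ≤ N ∧ ∃ a ∈ A, x n ≡ a [ZMOD 2 ^ t]} : Set ℕ).ncard : ℝ) ≤ ε * N

/-- `P n` holds for almost all `n`, in the sense of natural density. -/
def AlmostAll (P : ℕ → Prop) : Prop :=
  Tendsto (fun N : ℕ => (({n | 1 ≤ n ∧ n ≤ N ∧ ¬ P n} : Set ℕ).ncard : ℝ) / N) atTop (𝓝 0)

/-- The range: `W n = √ log n / (log log n) ^ 17`. -/
noncomputable def W (n : ℕ) : ℝ := √ (Real.log n) / (Real.log (Real.log n)) ^ 17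

/-- The linear recurrence `u (n + d) = c 0 u (n) + ... + c (d - 1) u (n + d - 1)` with `c 0` odd. -/
def OddRec (u : ℕ → ℤ) : Prop :=
  ∃ (d : ℕ) (c : ℕ → ℤ), 1 ≤ d ∧ Odd (c 0) ∧ ∀ n, u (n + d) = ∑ i ∈ Finset.range d, c i * u (n + i)

/-- `u` is smooth: for some step `M ≥ 1`, `4 ^ k` divides all the `k`-th differences of `u` with step `M`,
for every `k`. -/
def Smooth (u : ℕ → ℤ) : Prop :=
  ∃ M : ℕ, 1 ≤ M ∧ ∀ k n : ℕ,
    (4 : ℤ) ^ k ∣ ∑ j ∈ Finset.range (k + 1), (-1) ^ (k - j) * (k.choose j : ℤ) * u (n + j * M)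

/-- `u` is constant on no arithmetic progression. -/
def NoConst (u : ℕ → ℤ) : Prop := ∀ a q : ℕ, 1 ≤ q → ∃ m, u (a + q * m) ≠ u a

/-- If an orbit of the `3x+k` map passes at time `j` through `3 ^ i b + k r` with `i ≤ W n` and
`|r| ≤ exp (W n)`, then at time `j + s` it is at the point where the orbit of `b` is at time `s`. -/
def Merged (k b : ℤ) (n s : ℕ) : Prop :=
  ∀ (z : ℤ) (j i : ℕ) (r : ℤ), (i : ℝ) ≤ W n → |(r : ℝ)| ≤ Real.exp (W n) →
    (T k)^[j] z = 3 ^ i * b + k * r → (T k)^[j + s] z = (T k)^[s] b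

open Pool.Agent.Results.MP_7f88e4_nt.FixedStartAlmostAllK in
theorem sp_iff (x : ℕ → ℤ) : Spread x ↔ Pool.Agent.Y967.CM.Spread x := spread_iff x

open Pool.Agent.Results.MP_7f88e4_nt.FixedStartAlmostAllK in
theorem ev_of {k b : ℤ} {n s : ℕ} (hM : Merged k b n s) {r : ℤ} {i u : ℕ} (hi : (i : ℝ) ≤ W n)
    (hr : |(r : ℝ)| ≤ Real.exp (W n)) :
    (EvPer k (2 ^ u * (3 ^ i * b + k * r)) ↔ EvPer k b) ∧
      ∀ c : ℤ, (∃ p, 1 ≤ p ∧ (T k)^[p] c = c) →
        ((∃ l, (T k)^[l] (2 ^ u * (3 ^ i * b + k * r)) = c) ↔ ∃ l, (T k)^[l] b = c) := by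
  have h1 : (T k)^[u + s] (2 ^ u * (3 ^ i * b + k * r)) = (T k)^[s] b :=
    hM (2 ^ u * (3 ^ i * b + k * r)) u i r hi hr (halves k u _)
  refine ⟨?_, fun c hc => ?_⟩
  · have g1 := evper_iter k (u + s) (2 ^ u * (3 ^ i * b + k * r))
    have g2 := evper_iter k s b
    exact g1.symm.trans ((by rw [show (Pool.Agent.Results.MP_7f88e4_nt.FixedStartAlmostAllK.T k)^[u + s] (2 ^ u * (3 ^ i * b + k * r)) = _ from h1]; rfl :
      Pool.Agent.Results.MP_7f88e4_nt.FixedStartAlmostAllK.EvPer k ((Pool.Agent.Results.MP_7f88e4_nt.FixedStartAlmostAllK.T k)^[u + s] (2 ^ u * (3 ^ i * b + k * r))) ↔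
      Pool.Agent.Results.MP_7f88e4_nt.FixedStartAlmostAllK.EvPer k ((Pool.Agent.Results.MP_7f88e4_nt.FixedStartAlmostAllK.T k)^[s] b)).trans g2)
  · have g1 := reach_iter hc (u + s) (2 ^ u * (3 ^ i * b + k * r))
    have g2 := reach_iter hc s b
    exact g1.symm.trans ((by rw [show (Pool.Agent.Results.MP_7f88e4_nt.FixedStartAlmostAllK.T k)^[u + s] (2 ^ u * (3 ^ i * b + k * r)) = _ from h1]; rfl :
      (∃ l, (Pool.Agent.Results.MP_7f88e4_nt.FixedStartAlmostAllK.T k)^[l] ((Pool.Agent.Results.MP_7f88e4_nt.FixedStartAlmostAllK.T k)^[u + s] (2 ^ u * (3 ^ i * b + k * r))) = c) ↔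
      (∃ l, (Pool.Agent.Results.MP_7f88e4_nt.FixedStartAlmostAllK.T k)^[l] ((Pool.Agent.Results.MP_7f88e4_nt.FixedStartAlmostAllK.T k)^[s] b) = c)).trans g2)

/-- (1) Every linear recurrence with odd last coefficient is smooth, and so is every Newton series
`∑ c_j n (n - 1) ... (n - j + 1)` with integers `c_j`; sums and products of smooth sequences are smooth.
(2) A smooth sequence `u` is spread if and only if it is constant on no arithmetic progression, and then
`u (e n)` is spread for every spread sequence `e` of natural numbers.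
Let the sequence of integers `x` be smooth and constant on no arithmetic progression, let the
sequence of natural numbers `e` be spread, for example that of the primes, and let `k n` be the odd one of
the integers `x (e n)`, `x (e n) + 1`; so `k n = x (e n)` if `x (e n)` is odd.
(3) For all `κ, ε > 0` there is `N₀` such that, for all `N ≥ N₀` and all odd `b`, the following holds for
all but `ε N` of the `n ≤ N`: if an orbit of the `3x+k` map, `k = k n`, passes at time `j` through a point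
`3 ^ i b + k r` with `i ≤ W n` and `|r| ≤ exp (W n)`, then at time `j + ⌊κ log n⌋` it is at the point
where the orbit of `b` is at time `⌊κ log n⌋`. (4) For every odd `b`, for almost all `n`, with `k = k n`, for
all `i ≤ W n`, `|r| ≤ exp (W n)` and all `u`, the orbit of `2 ^ u (3 ^ i b + k r)` under the `3x+k` map is
eventually periodic if and only if the orbit of `b` is, and both orbits reach the same cycles.
(5) There is `c > 0` such that for every `ε > 0` there are `K` and `N₀` such that, for all `N ≥ N₀` and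
all odd `b`: for `K √ log N ≤ i ≤ c log N` the orbits of `3 ^ i b` and `b` under the `3x+k` map, `k = k n`,
are at different points at all times `t ≤ c log N`, for all but `ε N` of the `n ≤ N` with `k n` prime to
`b`; and for all but `ε N` of these `n` there is `r ≤ exp (K √ log N)` such that the orbits of `b + k r`
and `b` are at different points at all times `t ≤ c log N`.
(6) The Fibonacci numbers are smooth and constant on no arithmetic progression. -/
theorem result :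
    ((∀ u : ℕ → ℤ, OddRec u → Smooth u) ∧
      (∀ c : ℕ → ℤ, Smooth (fun n => ∑ j ∈ Finset.range (n + 1), c j * (n.descFactorial j : ℤ))) ∧
      (∀ u v : ℕ → ℤ, Smooth u → Smooth v → Smooth (fun n => u n + v n) ∧ Smooth (fun n => u n * v n))) ∧
    (∀ u : ℕ → ℤ, Smooth u → (Spread u ↔ NoConst u) ∧
      ∀ e : ℕ → ℕ, NoConst u → Spread (fun n => (e n : ℤ)) → Spread (fun n => u (e n))) ∧
    (∀ (x k : ℕ → ℤ) (e : ℕ → ℕ), Smooth x → NoConst x → Spread (fun n => (e n : ℤ)) →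
      (∀ n, Odd (k n) ∧ (k n = x (e n) ∨ k n = x (e n) + 1)) →
      (∀ κ ε : ℝ, 0 < κ → 0 < ε → ∃ N₀ : ℕ, ∀ N : ℕ, N₀ ≤ N → ∀ b : ℤ, Odd b →
        (({n | 1 ≤ n ∧ n ≤ N ∧ ¬ Merged (k n) b n ⌊κ * Real.log n⌋₊} : Set ℕ).ncard : ℝ) ≤ ε * N) ∧
      (∀ b : ℤ, Odd b → AlmostAll (fun n => ∀ (r : ℤ) (i u : ℕ), (i : ℝ) ≤ W n →
        |(r : ℝ)| ≤ Real.exp (W n) →
        (EvPer (k n) (2 ^ u * (3 ^ i * b + k n * r)) ↔ EvPer (k n) b) ∧
        ∀ c : ℤ, (∃ p, 1 ≤ p ∧ (T (k n))^[p] c = c) →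
          ((∃ l, (T (k n))^[l] (2 ^ u * (3 ^ i * b + k n * r)) = c) ↔ ∃ l, (T (k n))^[l] b = c))) ∧
      (∃ c : ℝ, 0 < c ∧ ∀ ε : ℝ, 0 < ε → ∃ K : ℝ, 0 < K ∧ ∃ N₀ : ℕ, ∀ N : ℕ, N₀ ≤ N → ∀ b : ℤ, Odd b →
        (∀ i : ℕ, K * √ (Real.log N) ≤ i → (i : ℝ) ≤ c * Real.log N →
          (({n | 1 ≤ n ∧ n ≤ N ∧ IsCoprime b (k n) ∧ ∃ t : ℕ, (t : ℝ) ≤ c * Real.log N ∧
            (T (k n))^[t] (3 ^ i * b) = (T (k n))^[t] b} : Set ℕ).ncard : ℝ) ≤ ε * N) ∧
        (({n | 1 ≤ n ∧ n ≤ N ∧ IsCoprime b (k n) ∧ ¬ ∃ r : ℕ, (r : ℝ) ≤ Real.exp (K * √ (Real.log N)) ∧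
          ∀ t : ℕ, (t : ℝ) ≤ c * Real.log N → (T (k n))^[t] (b + k n * r) ≠ (T (k n))^[t] b}
          : Set ℕ).ncard : ℝ) ≤ ε * N)) ∧
    (Smooth (fun n => (Nat.fib n : ℤ)) ∧ NoConst (fun n => (Nat.fib n : ℤ)) ∧
      Spread (fun n => (n : ℤ)) ∧ Spread (fun n => ((Nat.nth Nat.Prime n : ℕ) : ℤ))) := by
  obtain ⟨⟨hid, hpr, -, -⟩, hH1, -⟩ := Pool.Agent.Results.MP_7f88e4_nt.FixedStartAlmostAllK.result
  have hcomp : ∀ u : ℕ → ℤ, Smooth u → ∀ e : ℕ → ℕ, NoConst u → Spread (fun n => (e n : ℤ)) →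
      Spread (fun n => u (e n)) := fun u hu e hne he =>
    (sp_iff _).2 (Pool.Agent.U307.LR.Smooth.comp hu hne ((sp_iff _).1 he))
  refine ⟨⟨fun u hu => Pool.Agent.U307.LR.OddRec.smooth hu, fun c => Pool.Agent.U307.LR.newton_smooth c,
    fun u v hu hv => ⟨Pool.Agent.U307.LR.Smooth.add hu hv, Pool.Agent.U307.LR.Smooth.mul hu hv⟩⟩,
    fun u hu => ⟨(sp_iff u).trans (Pool.Agent.U307.LR.Smooth.spread_iff hu), fun e hne he => hcomp u hu e hne he⟩,
    fun x k e hx hne he hk => ?_, Pool.Agent.U307.LR.fib_odd.smooth, Pool.Agent.U307.LR.fib_noConst, hid, hpr⟩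
  have hs : Spread k := (sp_iff _).2
    (Pool.Agent.U307.LR.spread_near ((sp_iff _).1 (hcomp x hx e hne he)) fun n => (hk n).2)
  obtain ⟨g1, g2⟩ := hH1 k hs (fun n _ => (hk n).1)
  refine ⟨g1, fun b hb => ?_, g2⟩
  apply Pool.Agent.Results.MP_7f88e4_nt.FixedStartAlmostAllK.almost_of
  intro ε hε
  obtain ⟨N0, hN0⟩ := g1 1 ε one_pos hε
  refine ⟨N0, fun N hN => le_trans ?_ (hN0 N hN b hb)⟩
  apply Pool.Agent.Results.MP_7f88e4_nt.FixedStartAlmostAllK.ncard_mono
  intro n _ hn hM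
  apply hn
  intro r i u hi hr
  exact ev_of hM hi hr

end Pool.Agent.Results.MP_7f88e4_nt.LinearRecurrences
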