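import Pool.Agent.R468.MG.Q

/-!
# The law of the preperiods of the `3x+k` maps

Assembled from the starting library: the theorem is `Pool.Agent.R468.MG.pre_T`
(Pool/Agent/R468/MG/Q.lean, project of helper468), which no result used. For `k = 1` it is contained in
`MP_d02c56_nt.EnteringCycles`; for a general `k` the entrance into a SINGLE cycle is
`MP_7f88e4_nt.LocalLimitLaw`. Here `k` is general and all the cycles (possibly infinitely many) are taken
together.
-/

set_option autoImplicit false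

namespace Pool.Agent.Results.MP_7f88e4_nt.PreperiodLaw

open Filter Topology

/-- the `3x+k` map on the integers -/
def T (k x : ℤ) : ℤ := if x % 2 = 0 then x / 2 else (3 * x + k) / 2

/-- `x` is a periodic point of `T k`. -/
def Periodic (k x : ℤ) : Prop := ∃ p : ℕ, 1 ≤ p ∧ (T k)^[p] x = x

/-- The orbit of `x` is eventually periodic with the preperiod `m`: the `m`-th term of the orbit is the
first periodic one. -/
def Preperiod (k x : ℤ) (m : ℕ) : Prop := Periodic k ((T k)^[m] x) ∧ ∀ i < m, ¬ Periodic k ((T k)^[i] x)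

/-- The orbit of `x` is eventually periodic. -/
def EventuallyPeriodic (k x : ℤ) : Prop := ∃ m p : ℕ, 1 ≤ p ∧ (T k)^[m + p] x = (T k)^[m] x

/-- the number of the `n` with `1 ≤ n ≤ x` such that the orbit of `s n` has the preperiod `m` -/
noncomputable def N (k s : ℤ) (x : ℝ) (m : ℕ) : ℕ :=
  {n : ℕ | 1 ≤ n ∧ (n : ℝ) ≤ x ∧ Preperiod k (s * n) m}.ncard

/-- the number of the `r`-tuples of positive integers `n ≤ x` such that the orbits of all the `s n` are
eventually periodic with the same preperiod -/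
noncomputable def Tup (k s : ℤ) (r : ℕ) (x : ℝ) : ℕ :=
  {w : Fin r → ℕ | (∀ i, 1 ≤ w i ∧ (w i : ℝ) ≤ x) ∧ ∃ m : ℕ, ∀ i, Preperiod k (s * w i) m}.ncard

/-- The positive integers with the property `P` have the natural density `δ`. -/
def HasDensity (P : ℕ → Prop) (δ : ℝ) : Prop :=
  Tendsto (fun X : ℕ => ({n : ℕ | 1 ≤ n ∧ n ≤ X ∧ P n}.ncard : ℝ) / X) atTop (𝓝 δ)

/-- the constant of the mean value -/
noncomputable def μ : ℝ := 2 / Real.log (4 / 3)

/-- the constant of the variance -/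
noncomputable def σ2 : ℝ := 2 * Real.log 3 ^ 2 / Real.log (4 / 3) ^ 3

/-- the number `√(2 π σ2 log x)` -/
noncomputable def S (x : ℝ) : ℝ := Real.sqrt (2 * Real.pi * (σ2 * Real.log x))

/-- the value at `m` of the density of the normal distribution of mean `μ log x` and variance
`σ2 log x` -/
noncomputable def g (x : ℝ) (m : ℕ) : ℝ :=
  Real.exp (-(((m : ℝ) - μ * Real.log x) ^ 2 / (2 * (σ2 * Real.log x)))) / S x

theorem T_eq (k x : ℤ) : T k x = Pool.Agent.H499R2.ND.Td k x := rfl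

theorem pre_iff (k x : ℤ) (m : ℕ) : Preperiod k x m ↔ Pool.Agent.R468.MG.Pre k x m := Iff.rfl

/-- the orbit is eventually periodic iff it has a preperiod -/
theorem ev_iff (k x : ℤ) : EventuallyPeriodic k x ↔ ∃ m : ℕ, Preperiod k x m := by
  classical
  constructor
  · rintro ⟨m, p, hp, h⟩
    have hex : ∃ m : ℕ, Periodic k ((T k)^[m] x) := by
      refine ⟨m, p, hp, ?_⟩
      rw [← Function.iterate_add_apply, add_comm p m]
      exact h
    exact ⟨Nat.find hex, Nat.find_spec hex, fun i hi => Nat.find_min hex hi⟩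
  · rintro ⟨m, ⟨p, hp, h⟩, _⟩
    refine ⟨m, p, hp, ?_⟩
    rw [← Function.iterate_add_apply, add_comm p m] at h
    exact h

/-- Let `k` be an integer prime to `6` and `s = 1` or `s = -1`. There are a number `0 < δ ≤ 1`, a continuous
function `Ψ` of period one and a number `M` such that

* `δ` is the natural density of the positive integers `n` such that the orbit of `s n` under the `3x+k` map is
  eventually periodic; for `k = 1` it is one iff the orbit of every `s n` is eventually periodic;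
* `Ψ` lies between `δ (log 3)/2` and `δ (3 log 3)/2`, its mean over a period is `δ`, its maximum is `M`, and
  `δ ≤ M`;
* LOCAL LIMIT LAW: the number of the `n ≤ x` such that the preperiod of `s n` is `m` is
  `x g(x, m) (Ψ (log_3 (x / 2^m)) + o(1))`, uniformly for `|m - μ log x| ≤ K √(log x)`, for every `K`;
* this number is at most `A x / √(log x)` for all `m` and `x ≥ 2`, for some `A`;
* the largest of these numbers over all `m` is `(M + o(1)) x / √(2 π σ2 log x)`; a number of this size is taken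
  at some `m = μ log x + o(√(log x))`, and all the most frequent preperiods `m` satisfy
  `m = μ log x + o(√(log x))`;
* for every `r ≥ 1` the number of the `r`-tuples of positive integers `n ≤ x` for which the `s n` have one and
  the same preperiod is asymptotic to `c_r x^r / (2 π σ2 log x)^((r-1)/2)` with
  `c_r = (1 / √r) ∫ Ψ^r`. -/
theorem result (k : ℤ) (hk2 : k % 2 = 1) (hk3 : ¬ (3 : ℤ) ∣ k) (s : ℤ) (hs : s = 1 ∨ s = -1) :
    ∃ (δ : ℝ) (Ψ : ℝ → ℝ) (M : ℝ), 0 < δ ∧ δ ≤ 1 ∧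
      HasDensity (fun n => EventuallyPeriodic k (s * n)) δ ∧
      (k = 1 → (δ = 1 ↔ ∀ n : ℕ, 1 ≤ n → EventuallyPeriodic k (s * n))) ∧
      Continuous Ψ ∧ (∀ t, Ψ (t + 1) = Ψ t) ∧
      (∀ t, δ * (Real.log 3 / 2) ≤ Ψ t ∧ Ψ t ≤ δ * (3 * Real.log 3 / 2)) ∧
      (∫ t in (0 : ℝ)..1, Ψ t = δ) ∧ (∀ t, Ψ t ≤ M) ∧ (∃ t, Ψ t = M) ∧ δ ≤ M ∧
      (∀ K ε : ℝ, 0 < ε → ∃ X₀ : ℝ, ∀ x : ℝ, X₀ ≤ x → ∀ m : ℕ,
        |(m : ℝ) - μ * Real.log x| ≤ K * Real.sqrt (Real.log x) →
        |(N k s x m : ℝ) / (x * g x m) - Ψ (Real.logb 3 (x / 2 ^ m))| ≤ ε) ∧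
      (∃ A : ℝ, 0 < A ∧ ∀ x : ℝ, 2 ≤ x → ∀ m : ℕ, (N k s x m : ℝ) ≤ A * x / Real.sqrt (Real.log x)) ∧
      (∀ ε : ℝ, 0 < ε → ∃ X₀ : ℝ, ∀ x : ℝ, X₀ ≤ x →
        (∀ m : ℕ, (N k s x m : ℝ) ≤ (M + ε) * x / S x) ∧
        (∃ m : ℕ, |(m : ℝ) - μ * Real.log x| ≤ ε * Real.sqrt (Real.log x) ∧
          (M - ε) * x / S x ≤ (N k s x m : ℝ)) ∧
        ∀ m : ℕ, (∀ i : ℕ, N k s x i ≤ N k s x m) →
          |(m : ℝ) - μ * Real.log x| ≤ ε * Real.sqrt (Real.log x)) ∧
      (∀ r : ℕ, 1 ≤ r → Tendsto (fun x : ℝ => (Tup k s r x : ℝ) * (S x ^ (r - 1) / x ^ r)) atTop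
        (𝓝 (1 / Real.sqrt r * ∫ t in (0 : ℝ)..1, Ψ t ^ r))) := by
  have hodd : Odd k := Int.odd_iff.2 hk2
  obtain ⟨δ, Ψ, M, h1, h2, h3, h4, h5, h6, h7, h8, h9, h10, h11, h12, h13, h14, h15⟩ :=
    Pool.Agent.R468.MG.pre_T hodd hk3 hs
  refine ⟨δ, Ψ, M, h1, h2, ?_, ?_, h5, h6, h7, h8, h9, h10, h11, h12, h13, h14, h15⟩
  · have e : (fun n : ℕ => EventuallyPeriodic k (s * n)) =
        fun n : ℕ => ∃ m : ℕ, Pool.Agent.R468.MG.Pre k (s * n) m := by
      funext n
      exact propext (ev_iff k _)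
    unfold HasDensity
    rw [e]
    exact h3
  · rintro rfl
    refine (h4 rfl).trans (forall_congr' fun n => imp_congr_right fun _ => (ev_iff 1 _).symm)

end Pool.Agent.Results.MP_7f88e4_nt.PreperiodLaw
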