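import Pool.Agent.U457.PS.Sharp

/-!
# The `3x+k` maps: how often orbits meet a thin set before they descend, with the sharp exponent

Let `k` be prime to `6` and `T` the `3x+k` map on the integers. We say that the orbit of `x` meets the set `A`
above `Y` if it contains an element of `A` before it takes a value of absolute value smaller than `Y`. Let `H`
be the binary entropy of `log 2 / log 3` in bits, `1 - H = 0.05004...`.

(1) A Borel-Cantelli lemma for ARBITRARY sets `A`: for `0 < s < 1 - H` and `ε > 0`, among the integers `|x| ≤ X`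
at most
`C X (∑ max (Y, |a| ^ (1/(1+s))) ^ (ε - 1) + Y ^ (ε - s))`, sum over the `a` in `A` with `Y ≤ |a| ≤ X ^ (1+s)`,
have an orbit that meets `A` above `Y`; `C` depends on `k`, `s`, `ε` only, not on `A`, `X`, `Y`.
(2) If `A` has at most `D N ^ (1 - δ)` elements `a` with `Y ≤ |a| ≤ N` for all `N ≥ Y`, then at most
`C (1 + D) X Y ^ (-c)` of the integers `|x| ≤ X` have an orbit that meets `A` above `Y`, for every
`c < min (δ/(2-δ), 1 - H)`.
(3) The exponent `δ/(2-δ)` is sharp (for all `δ` with `δ/(2-δ) < 3/20`, so in the whole range in which it is the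
minimum in (2)): for every `c > δ/(2-δ)` there is a set with at most `D N ^ (1 - δ)` elements in `[-N, N]` for all
`N ≥ 1` for which the bound `C X Y ^ (-c)` is false for every `C`, already for `X = 2 Y` and arbitrarily large `Y`.
-/

set_option autoImplicit false

namespace Pool.Agent.Results.MP_7f88e4_nt.ThinSetsSharpExponent

open Pool.Agent.U457.PS

/-- The `3x+k` map on the integers. -/
def T (k x : ℤ) : ℤ := if x % 2 = 0 then x / 2 else (3 * x + k) / 2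

/-- The orbit of `x` meets `A` before it takes a value of absolute value smaller than `Y`. -/
def MeetsAbove (k : ℤ) (Y : ℝ) (A : Set ℤ) (x : ℤ) : Prop :=
  ∃ n : ℕ, (T k)^[n] x ∈ A ∧ ∀ j ≤ n, Y ≤ |(((T k)^[j] x : ℤ) : ℝ)|

/-- the number of the integers `x` with `|x| ≤ X` and the property `P` -/
noncomputable def count (X : ℝ) (P : ℤ → Prop) : ℝ := ({x : ℤ | |(x : ℝ)| ≤ X ∧ P x}.ncard : ℝ)

/-- the binary entropy of `log 2 / log 3` in bits, `0.94995...` -/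
noncomputable def H : ℝ := Real.binEntropy (Real.log 2 / Real.log 3) / Real.log 2

/-- the elements `a` of `A` with `Y ≤ |a| ≤ Z`, a finite set -/
noncomputable def part (A : Set ℤ) (Y Z : ℝ) : Finset ℤ :=
  ((fin_abs Z (fun a => a ∈ A ∧ Y ≤ |(a : ℝ)|)).toFinset)

theorem mem_part {A : Set ℤ} {Y Z : ℝ} {a : ℤ} :
    a ∈ part A Y Z ↔ |(a : ℝ)| ≤ Z ∧ a ∈ A ∧ Y ≤ |(a : ℝ)| := by
  unfold part
  rw [Set.Finite.mem_toFinset]
  rfl

theorem result (k : ℤ) (hk : k % 6 = 1 ∨ k % 6 = 5) :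
    (∀ s ε : ℝ, 0 < s → s < 1 - H → 0 < ε → ∃ C : ℝ, ∀ X Y : ℝ, 1 ≤ Y → 1 ≤ X → ∀ A : Set ℤ,
      count X (MeetsAbove k Y A) ≤
        C * X * ((∑ a ∈ part A Y (X ^ (1 + s)), (max Y (|(a : ℝ)| ^ (1 / (1 + s)))) ^ (ε - 1)) +
          Y ^ (ε - s))) ∧
    (∀ δ c : ℝ, 0 < δ → δ ≤ 1 → 0 < c → c < δ / (2 - δ) → c < 1 - H → ∃ C : ℝ, ∀ X Y : ℝ, 1 ≤ Y → 1 ≤ X →
      ∀ (D : ℝ) (A : Set ℤ), (∀ N : ℝ, Y ≤ N → count N (fun a => a ∈ A ∧ Y ≤ |(a : ℝ)|) ≤ D * N ^ (1 - δ)) →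
        count X (MeetsAbove k Y A) ≤ C * (1 + D) * X * Y ^ (-c)) ∧
    (∀ δ c : ℝ, 0 < δ → δ ≤ 1 → δ / (2 - δ) < 3 / 20 → δ / (2 - δ) < c →
      ∃ A : Set ℤ, (∃ D : ℝ, ∀ N : ℝ, 1 ≤ N → count N (fun a => a ∈ A) ≤ D * N ^ (1 - δ)) ∧
        ∀ C Y₀ : ℝ, ∃ Y : ℝ, Y₀ ≤ Y ∧ 1 ≤ Y ∧ C * (2 * Y) * Y ^ (-c) < count (2 * Y) (MeetsAbove k Y A)) := by
  have hodd : Odd k := Int.odd_iff.2 (by omega)
  have hk3 : IsCoprime k 3 := by
    rw [isCoprime_comm]
    exact (Prime.coprime_iff_not_dvd Int.prime_three).2 (by omega)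
  refine ⟨fun s ε hs hsb hε => ?_, fun δ c hδ0 hδ1 hc0 hcδ hcb => ?_, fun δ c hδ0 hδ1 hδs hc => ?_⟩
  · obtain ⟨C, hC, h⟩ := arb hodd hk3 hs hsb hε
    refine ⟨C, fun X Y hY hX A => ?_⟩
    have h1 := h Y hY A X hX
    have e : seg A Y (X ^ (1 + s)) = part A Y (X ^ (1 + s)) := by
      ext a
      rw [mem_seg, mem_part]
      tauto
    rw [e] at h1
    exact h1
  · obtain ⟨C, hC, h⟩ := thin hodd hk3 hδ1 hc0 hcδ hcb
    refine ⟨C, fun X Y hY hX D A hA => ?_⟩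
    apply h Y hY D A _ X hX
    intro N hN
    refine le_trans (le_of_eq ?_) (hA N hN)
    unfold count
    congr 2
    ext a
    simp only [Set.mem_ofPred_eq]
    tauto
  · obtain ⟨A, ⟨D, hD⟩, hA⟩ := sharp_all hodd hδ0 hδ1 hδs hc
    refine ⟨A, ⟨D, fun N hN => ?_⟩, hA⟩
    refine le_trans (le_of_eq ?_) (hD N hN)
    unfold count
    congr 2
    ext a
    simp only [Set.mem_ofPred_eq]
    tauto

end Pool.Agent.Results.MP_7f88e4_nt.ThinSetsSharpExponent
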